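import Pool.Agent.Work.MP_c2648d_gt.Quo
import Pool.Agent.Work.MP_c2648d_gt.InvLim

set_option autoImplicit false

namespace Pool.Agent.Results.MP_c2648d_gt.FiniteToOne

open Set

/-- A subset of a space is a subcontinuum when it is (nonempty) compact and connected. -/
def IsSubcontinuum {X : Type} [TopologicalSpace X] (K : Set X) : Prop :=
  IsCompact K ∧ IsConnected K

/-- `K` is the union of two proper subcontinua. -/
def IsDecomposable {X : Type} [TopologicalSpace X] (K : Set X) : Prop :=
  ∃ A B : Set X, IsSubcontinuum A ∧ IsSubcontinuum B ∧ A ⊂ K ∧ B ⊂ K ∧ A ∪ B = K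

/-- Every subcontinuum of `X` is indecomposable. -/
def HereditarilyIndecomposable (X : Type) [TopologicalSpace X] : Prop :=
  ∀ K : Set X, IsSubcontinuum K → ¬ IsDecomposable K

/-- Every nondegenerate subcontinuum of `X` is decomposable. -/
def HereditarilyDecomposable (X : Type) [TopologicalSpace X] : Prop :=
  ∀ K : Set X, IsSubcontinuum K → K.Nontrivial → IsDecomposable K

/-- There are a nondegenerate hereditarily indecomposable metric continuum `X`, a nondegenerate
hereditarily decomposable metric continuum `Y` and a continuous surjection `X → Y` all of whose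
fibres are finite, with at most three points. -/
theorem result :
    ∃ (X Y : Type) (_ : MetricSpace X) (_ : MetricSpace Y),
      CompactSpace X ∧ ConnectedSpace X ∧ Nontrivial X ∧ HereditarilyIndecomposable X ∧
      CompactSpace Y ∧ ConnectedSpace Y ∧ Nontrivial Y ∧ HereditarilyDecomposable Y ∧
      ∃ f : X → Y, Continuous f ∧ Function.Surjective f ∧
        ∀ y : Y, (f ⁻¹' {y}).Finite ∧ (f ⁻¹' {y}).ncard ≤ 3 := by
  obtain ⟨g, hg⟩ := Work.MP_c2648d_gt.tower_pr.exists_good
  have hmY : TopologicalSpace.MetrizableSpace (Work.MP_c2648d_gt.Quo g) :=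
    Work.MP_c2648d_gt.metrizable_of_surjective (Work.MP_c2648d_gt.continuous_proj g)
      (Work.MP_c2648d_gt.proj_surjective g)
  have hfib : ∀ y : Work.MP_c2648d_gt.Quo g,
      (Work.MP_c2648d_gt.proj g ⁻¹' {y}).encard ≤ 3 := by
    intro y
    obtain ⟨x, rfl⟩ := Work.MP_c2648d_gt.proj_surjective g y
    have : Work.MP_c2648d_gt.proj g ⁻¹' {Work.MP_c2648d_gt.proj g x} =
        Work.MP_c2648d_gt.Cls g x := by
      ext z
      simp only [mem_preimage, mem_singleton_iff]
      rw [eq_comm, Work.MP_c2648d_gt.proj_eq]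
      rfl
    rw [this]
    exact hg x
  have hfin : ∀ y : Work.MP_c2648d_gt.Quo g, (Work.MP_c2648d_gt.proj g ⁻¹' {y}).Finite := by
    intro y
    rw [← Set.encard_lt_top_iff]
    exact (hfib y).trans_lt (ENat.natCast_lt_top 3)
  refine ⟨Work.MP_c2648d_gt.PA, Work.MP_c2648d_gt.Quo g,
    TopologicalSpace.metrizableSpaceMetric _, TopologicalSpace.metrizableSpaceMetric _,
    inferInstance, inferInstance, inferInstance, ?_, inferInstance, inferInstance, ?_, ?_,
    Work.MP_c2648d_gt.proj g, Work.MP_c2648d_gt.continuous_proj g,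
    Work.MP_c2648d_gt.proj_surjective g, ?_⟩
  · rintro K ⟨-, hK⟩ ⟨A, B, ⟨hA, hAc⟩, ⟨hB, hBc⟩, hAK, hBK, hAB⟩
    have hne : (A ∩ B).Nonempty := by
      have h1 := isPreconnected_closed_iff.mp hK.isPreconnected A B hA.isClosed hB.isClosed
        hAB.ge ?_ ?_
      · exact h1.mono inter_subset_right
      · rw [← hAB, union_inter_cancel_left]; exact hAc.nonempty
      · rw [← hAB, union_inter_cancel_right]; exact hBc.nonempty
    rcases Work.MP_c2648d_gt.nested hA hAc.isPreconnected hB hBc.isPreconnected hne with h | h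
    · rw [union_eq_self_of_subset_left h] at hAB
      exact hBK.ne hAB
    · rw [union_eq_self_of_subset_right h] at hAB
      exact hAK.ne hAB
  · by_contra hcon
    rw [not_nontrivial_iff_subsingleton] at hcon
    have huniv : ∀ y : Work.MP_c2648d_gt.Quo g,
        Work.MP_c2648d_gt.proj g ⁻¹' {y} = univ := by
      intro y
      ext x
      simp only [mem_preimage, mem_singleton_iff, mem_univ, iff_true]
      exact Subsingleton.elim _ _
    obtain ⟨x⟩ : Nonempty Work.MP_c2648d_gt.PA := inferInstance
    have h1 := hfin (Work.MP_c2648d_gt.proj g x)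
    rw [huniv] at h1
    have h2 : Finite Work.MP_c2648d_gt.PA := Set.finite_univ_iff.mp h1
    have h3 : Infinite Work.MP_c2648d_gt.PA := by
      by_contra h4
      have hfin : Finite Work.MP_c2648d_gt.PA := h2
      have : DiscreteTopology Work.MP_c2648d_gt.PA := inferInstance
      have h5 : Subsingleton Work.MP_c2648d_gt.PA := PreconnectedSpace.trivial_of_discrete
      exact not_subsingleton _ h5
    exact not_finite Work.MP_c2648d_gt.PA
  · rintro K ⟨hK, hKc⟩ hKn
    obtain ⟨A, B, hA, hB, hAK, hBK, hAB⟩ :=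
      Work.MP_c2648d_gt.decomposable_of_height g hK hKc hKn
    exact ⟨A, B, hA, hB, hAK, hBK, hAB⟩
  · intro y
    refine ⟨hfin y, ?_⟩
    have h1 := hfib y
    rw [← (hfin y).cast_ncard_eq] at h1
    exact_mod_cast h1

end Pool.Agent.Results.MP_c2648d_gt.FiniteToOne
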